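import Pool.Agent.Mg.F5f4cddb.G25bbd1

set_option autoImplicit false
open MeasureTheory ENNReal

namespace Pool.Agent.Results.MP_5f4cdd_gt.Chord

theorem result (n : ℕ) (K : Set (Fin n → ℝ)) (hK : IsCompact K)
    (h0 : (0 : Fin n → ℝ) ∈ interior K) (h : (Fin n → ℝ) → ℝ)
    (hh : ∀ y, h y = sSup ((fun x : Fin n → ℝ => ∑ i, x i * y i) '' K)) (L : Set (Fin n → ℝ))
    (hL : L = {x | ∀ y, (h y + h (-y)) * ∑ i, x i * y i ≤ h y * h (-y)}) :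
    (∀ p : ℝ, 0 < p →
      (2 : ℝ≥0∞) ^ n * volume K ≤ volume L * (volume K * ∫⁻ y : Fin n → ℝ, ENNReal.ofReal
        (((∫ x in K, Real.exp (p * ∑ i, x i * y i)) / (volume K).toReal) ^ (-(1 / p))))) ∧
    (2 : ℝ≥0∞) ^ n * volume K ≤ volume L *
      (volume K * ∫⁻ y : Fin n → ℝ, ENNReal.ofReal (Real.exp (-h y))) := by
  obtain rfl : h = Pool.Agent.MP_5f4cdd_gt.LJ.hs K := funext hh
  subst hL
  have h1 := Pool.Agent.MP_5f4cdd_gt.LJ.chord_mahler n K hK h0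
  have h2 := mul_le_mul' h1 (le_refl (volume K))
  rw [mul_assoc, mul_comm (∫⁻ _, _) (volume K)] at h2
  refine ⟨fun p hp => h2.trans (mul_le_mul' le_rfl (mul_le_mul' le_rfl
    (lintegral_mono fun y => ?_))), h2⟩
  exact ENNReal.ofReal_le_ofReal (Pool.Agent.MP_5f4cdd_gt.LJ.mahler_p_ge n K hK ⟨0, h0⟩ hp y)

end Pool.Agent.Results.MP_5f4cdd_gt.Chord
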