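import Pool.Agent.Mg.F5f4cddb.G337236

set_option autoImplicit false
open MeasureTheory ENNReal

namespace Pool.Agent.Results.MP_5f4cdd_gt.Mahler

theorem result (n : ℕ) (M : Set (Fin n → ℝ) → ℝ≥0∞)
    (hM : ∀ L : Set (Fin n → ℝ), M L = volume L * ∫⁻ y : Fin n → ℝ, ENNReal.ofReal
      (Real.exp (-(sSup ((fun x : Fin n → ℝ => ∑ i, x i * y i) '' L)))))
    (D : Set (Fin n → ℝ)) (hD : D = {z | (∀ i, 0 ≤ z i) ∧ ∑ i, z i ≤ 1}) (c : ℝ≥0∞)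
    (hc : c = ENNReal.ofReal (((n : ℝ) + 1) ^ (n + 1) / n.factorial)) :
    (⨅ x ∈ D, M ((fun z => z - x) '' D)) = c ∧
    ∀ K : Set (Fin n → ℝ), Convex ℝ K → IsCompact K → (interior K).Nonempty →
      c ≤ M K ∧ ∀ p : ℝ, 0 < p → c ≤ volume K * ∫⁻ y : Fin n → ℝ, ENNReal.ofReal
        (((∫ x in K, Real.exp (p * ∑ i, x i * y i)) / (volume K).toReal) ^ (-(1 / p))) := by
  obtain rfl : M = Pool.Agent.MP_5f4cdd_gt.mahlerInf := funext hM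
  subst hD hc
  refine ⟨Pool.Agent.MP_5f4cdd_gt.Last.simplex_eq n, fun K h1 h2 h3 => ?_⟩
  have h := Pool.Agent.MP_5f4cdd_gt.OK.mahler_sharp n K h1 h2 h3
  refine ⟨h, fun p hp => h.trans (mul_le_mul' le_rfl (lintegral_mono fun y => ?_))⟩
  exact ENNReal.ofReal_le_ofReal (Pool.Agent.MP_5f4cdd_gt.LJ.mahler_p_ge n K h2 h3 hp y)

end Pool.Agent.Results.MP_5f4cdd_gt.Mahler
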